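import Pool.Agent.Lib_helper18.FD8

/-!
Let `n ≥ 1` be an integer all of whose prime factors are `≡ 1 (mod 3)`.  Then there is a residue
class `a (mod 9n)`, coprime to `9n`, such that for every odd prime `q ≡ a (mod 9n)` neither `n*q`
nor `n*q^2` is a sum of two rational cubes.  In particular there are infinitely many such `q`.
-/

namespace Pool.Agent.Lib_helper84.CubVariants.PrimeMultiples

theorem result (n : ℕ) (hn : n ≠ 0) (h : ∀ p : ℕ, p.Prime → p ∣ n → p % 3 = 1) :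
    (∃ a : ℕ, a.Coprime (9 * n) ∧ ∀ q : ℕ, q.Prime → 2 < q → q ≡ a [MOD 9 * n] →
      (¬ ∃ X Y : ℚ, X ^ 3 + Y ^ 3 = (n : ℚ) * (q : ℚ)) ∧
      (¬ ∃ X Y : ℚ, X ^ 3 + Y ^ 3 = (n : ℚ) * (q : ℚ) ^ 2)) ∧
    {q : ℕ | q.Prime ∧
      (¬ ∃ X Y : ℚ, X ^ 3 + Y ^ 3 = (n : ℚ) * (q : ℚ)) ∧
      (¬ ∃ X Y : ℚ, X ^ 3 + Y ^ 3 = (n : ℚ) * (q : ℚ) ^ 2)}.Infinite := by
  obtain ⟨a, ha, hq⟩ := Pool.Agent.Lib_helper18.exists_class n hn h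
  refine ⟨⟨a, ha, hq⟩, ?_⟩
  have h9 : 9 * n ≠ 0 := by omega
  have hinf : {p : ℕ | p.Prime ∧ p ≡ a [MOD 9 * n]}.Infinite :=
    Nat.infinite_setOfPred_prime_and_modEq h9 ha
  have hinf2 : ({p : ℕ | p.Prime ∧ p ≡ a [MOD 9 * n]} \ {2}).Infinite :=
    hinf.sdiff (Set.finite_singleton 2)
  refine hinf2.mono ?_
  rintro q ⟨⟨hqp, hqa⟩, hq2⟩
  have h2 : 2 < q := lt_of_le_of_ne hqp.two_le (fun h => hq2 (by simp [← h]))
  exact ⟨hqp, (hq q hqp h2 hqa).1, (hq q hqp h2 hqa).2⟩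

end Pool.Agent.Lib_helper84.CubVariants.PrimeMultiples
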