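import Pool.Agent.Lib_helper18.FD13

/-!
Let `l` be a prime with `l ≡ 2` or `5 (mod 9)`, let `e` be an exponent not divisible by `3`, let
`n ≥ 1` be an integer all of whose prime factors are `≡ 1 (mod 3)`, and let `g = 1` or `g = 2`.
Then there is a residue class `a (mod 9ln)`, coprime to `9ln`, with `a ≡ 2 (mod 3)`, such that for every prime
`q ≡ a (mod 9ln)` the number `l^e * n * q^g` is not a sum of two rational cubes.  In particular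
there are infinitely many such primes `q`.
-/

namespace Pool.Agent.Lib_helper84.CubVariants.TwoInertPrimes

theorem result (l : ℕ) (hl : l.Prime) (hl9 : l % 9 = 2 ∨ l % 9 = 5) (e : ℕ) (he : ¬ 3 ∣ e)
    (n : ℕ) (hn : n ≠ 0) (h : ∀ p : ℕ, p.Prime → p ∣ n → p % 3 = 1)
    (g : ℕ) (hg : g = 1 ∨ g = 2) :
    (∃ a : ℕ, a % 3 = 2 ∧ a.Coprime (9 * l * n) ∧ ∀ q : ℕ, q.Prime → q ≡ a [MOD 9 * l * n] →
      ¬ ∃ X Y : ℚ, X ^ 3 + Y ^ 3 = (l : ℚ) ^ e * (n : ℚ) * (q : ℚ) ^ g) ∧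
    {q : ℕ | q.Prime ∧
      ¬ ∃ X Y : ℚ, X ^ 3 + Y ^ 3 = (l : ℚ) ^ e * (n : ℚ) * (q : ℚ) ^ g}.Infinite := by
  obtain ⟨a, ha3, ha, hq⟩ := Pool.Agent.Lib_helper18.exists_class_two n hn h hl hl9 he hg
  refine ⟨⟨a, ha3, ha, hq⟩, ?_⟩
  have h9 : 9 * l * n ≠ 0 := by
    have := hl.ne_zero
    positivity
  have hinf : {p : ℕ | p.Prime ∧ p ≡ a [MOD 9 * l * n]}.Infinite :=
    Nat.infinite_setOfPred_prime_and_modEq h9 ha
  refine hinf.mono ?_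
  rintro q ⟨hqp, hqa⟩
  exact ⟨hqp, hq q hqp hqa⟩

end Pool.Agent.Lib_helper84.CubVariants.TwoInertPrimes
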